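import Pool.Agent.Helper73.QC.Res

/-!
# The sums over the complement of the quadrilateral modulo a prime above `r`, with quadratic twists
-/

open Finset

namespace Pool.Agent.Helper73.QC

open Pool.Agent.Helper73.LF Pool.Agent.Helper73.KT

section two

variable {K κ : Type*} [Field K] [Fintype K] [Field κ] {ρ : MulChar K κ}

omit [Fintype K] in
theorem mul_two (hρρ : ρ * ρ = 1) {A B : MulChar K κ} (hA : A = 1 ∨ A = ρ) (hB : B = 1 ∨ B = ρ) :
    A * B = 1 ∨ A * B = ρ := by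
  rcases hA with hA | hA <;> rcases hB with hB | hB <;> rw [hA, hB]
  · left; rw [one_mul]
  · right; rw [one_mul]
  · right; rw [mul_one]
  · left; exact hρρ

theorem jac_two (hρ1 : ρ ≠ 1) (hρρ : ρ * ρ = 1) (hneg : ρ (-1) = 1) (hq : (Fintype.card K : κ) = 1)
    {A B : MulChar K κ} (hA : A = 1 ∨ A = ρ) (hB : B = 1 ∨ B = ρ) : ∑ x, A x * B (1 - x) = -1 := by
  classical
  have hinv : ρ⁻¹ = ρ := inv_eq_of_mul_eq_one_right hρρ
  show jacobiSum A B = -1
  rcases hA with rfl | rfl <;> rcases hB with rfl | rfl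
  · rw [jacobiSum_one_one, hq]; ring
  · exact jacobiSum_one_nontrivial hρ1
  · rw [jacobiSum_comm]; exact jacobiSum_one_nontrivial hρ1
  · have h := jacobiSum_nontrivial_inv hρ1
    rwa [hinv, hneg] at h

omit [Fintype K] in
theorem one_val [DecidableEq K] (x : K) : (1 : MulChar K κ) x = if x = 0 then 0 else 1 := by
  split_ifs with h
  · rw [h, MulChar.map_nonunit _ not_isUnit_zero]
  · exact MulChar.one_apply (isUnit_iff_ne_zero.2 h)

theorem sum_shift (hρ1 : ρ ≠ 1) (y : K) : ∑ x, ρ (x - y) = 0 := by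
  rw [← MulChar.sum_eq_zero_of_ne_one hρ1]
  exact Fintype.sum_equiv (Equiv.subRight y) _ _ fun x => rfl

theorem sum_pair (hρ1 : ρ ≠ 1) (hρρ : ρ * ρ = 1) (hneg : ρ (-1) = 1) (hq : (Fintype.card K : κ) = 1)
    {y : K} (hy : y ≠ 0) : ∑ x, ρ x * ρ (x - y) = -1 := by
  rw [← jac_two hρ1 hρρ hneg hq (Or.inr rfl) (Or.inr rfl), ← Equiv.sum_comp (Equiv.mulLeft₀ y hy)]
  refine sum_congr rfl fun t _ => ?_
  rw [Equiv.mulLeft₀_apply]
  have e : y * t - y = y * (-1 * (1 - t)) := by ring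
  have h2 : ρ y * ρ y = 1 := by
    rw [← MulChar.mul_apply, hρρ, MulChar.one_apply (isUnit_iff_ne_zero.2 hy)]
  rw [e, map_mul, map_mul, map_mul, hneg]
  linear_combination (ρ t * ρ (1 - t)) * h2

theorem fib_one_one (hρ1 : ρ ≠ 1) (hneg : ρ (-1) = 1) (y : K) :
    fib 1 1 ρ y = - ρ y - ρ (1 - y) := by
  classical
  have e : ∀ x : K, (1 : MulChar K κ) x * (1 : MulChar K κ) (1 - x) * ρ (x - y) =
      ρ (x - y) - (if x = 0 then ρ (x - y) else 0) - (if x = 1 then ρ (x - y) else 0) := by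
    intro x
    rw [one_val, one_val]
    by_cases h0 : x = 0
    · subst h0
      rw [if_pos rfl, if_pos rfl, if_neg zero_ne_one]
      ring
    by_cases h1 : x = 1
    · subst h1
      rw [sub_self, if_pos rfl, if_neg h0, if_pos rfl, if_neg h0]
      ring
    · rw [if_neg h0, if_neg h0, if_neg h1, if_neg (sub_ne_zero.2 (Ne.symm h1))]
      ring
  rw [fib, sum_congr rfl fun x _ => e x, sum_sub_distrib, sum_sub_distrib, sum_shift hρ1, sum_ite_eq', sum_ite_eq',
    if_pos (mem_univ _), if_pos (mem_univ _), zero_sub, zero_sub, map_neg_arg hneg]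

theorem fib_rho_one (hρ1 : ρ ≠ 1) (hρρ : ρ * ρ = 1) (hneg : ρ (-1) = 1) (hq : (Fintype.card K : κ) = 1)
    {y : K} (hy : y ≠ 0) : fib ρ 1 ρ y = - 1 - ρ (1 - y) := by
  classical
  have e : ∀ x : K, ρ x * (1 : MulChar K κ) (1 - x) * ρ (x - y) =
      ρ x * ρ (x - y) - (if x = 1 then ρ x * ρ (x - y) else 0) := by
    intro x
    rw [one_val]
    by_cases h1 : x = 1
    · subst h1
      rw [sub_self, if_pos rfl, if_pos rfl]
      ring
    · rw [if_neg h1, if_neg (sub_ne_zero.2 (Ne.symm h1))]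
      ring
  rw [fib, sum_congr rfl fun x _ => e x, sum_sub_distrib, sum_pair hρ1 hρρ hneg hq hy, sum_ite_eq',
    if_pos (mem_univ _), map_one, one_mul]

theorem fib_one_rho (hρ1 : ρ ≠ 1) (hρρ : ρ * ρ = 1) (hneg : ρ (-1) = 1) (hq : (Fintype.card K : κ) = 1)
    {y : K} (hy : y ≠ 1) : fib 1 ρ ρ y = - 1 - ρ y := by
  classical
  have e : ∀ x : K, (1 : MulChar K κ) x * ρ (1 - x) * ρ (x - y) =
      ρ (1 - x) * ρ (x - y) - (if x = 0 then ρ (1 - x) * ρ (x - y) else 0) := by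
    intro x
    rw [one_val]
    by_cases h1 : x = 0
    · subst h1
      rw [if_pos rfl, if_pos rfl]
      ring
    · rw [if_neg h1, if_neg h1]
      ring
  have h3 : ∑ x, ρ (1 - x) * ρ (x - y) = -1 := by
    rw [← sum_pair hρ1 hρρ hneg hq (sub_ne_zero.2 (Ne.symm hy) : (1 : K) - y ≠ 0), ← Equiv.sum_comp (Equiv.subLeft (1 : K))]
    refine sum_congr rfl fun x _ => ?_
    rw [Equiv.subLeft_apply]
    have e1 : (1 : K) - (1 - x) = x := by ring
    have e2 : (1 : K) - x - y = - (x - (1 - y)) := by ring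
    rw [e1, e2, map_neg_arg hneg]
  rw [fib, sum_congr rfl fun x _ => e x, sum_sub_distrib, h3, sum_ite_eq',
    if_pos (mem_univ _), sub_zero, map_one, one_mul, zero_sub, map_neg_arg hneg]

theorem sum_weight (C D : MulChar K κ) (G : K → κ) (H : K → κ) (h : ∀ y, y ≠ 0 → y ≠ 1 → G y = H y) :
    ∑ y, C y * D (1 - y) * G y = ∑ y, C y * D (1 - y) * H y := by
  refine sum_congr rfl fun y _ => ?_
  by_cases h0 : y = 0
  · rw [h0, map_zero'', zero_mul, zero_mul, zero_mul]
  by_cases h1 : y = 1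
  · rw [h1, sub_self, map_zero'', mul_zero, zero_mul, zero_mul]
  · rw [h y h0 h1]

theorem quad_rho (hρ1 : ρ ≠ 1) (hρρ : ρ * ρ = 1) (hneg : ρ (-1) = 1) (hq : (Fintype.card K : κ) = 1)
    {A B C D : MulChar K κ} (hA : A = 1 ∨ A = ρ) (hB : B = 1 ∨ B = ρ) (hC : C = 1 ∨ C = ρ)
    (hD : D = 1 ∨ D = ρ) (hAB : ¬ (A = ρ ∧ B = ρ)) : quad A B C D ρ = 2 := by
  have j := fun {A B : MulChar K κ} (hA : A = 1 ∨ A = ρ) (hB : B = 1 ∨ B = ρ) => jac_two hρ1 hρρ hneg hq hA hB
  have m := fun {A B : MulChar K κ} (hA : A = 1 ∨ A = ρ) (hB : B = 1 ∨ B = ρ) => mul_two hρρ hA hB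
  have j0 := j hC hD
  have j1 := j (m hC (Or.inr rfl)) hD
  have j2 := j hC (m hD (Or.inr rfl))
  simp only [MulChar.mul_apply] at j1 j2
  rw [quad_eq]
  rcases hA with hA | hA <;> rcases hB with hB | hB <;> rw [hA, hB]
  · rw [sum_weight C D _ (fun y => - ρ y - ρ (1 - y)) fun y _ _ => fib_one_one hρ1 hneg y]
    have e : ∀ y : K, C y * D (1 - y) * (- ρ y - ρ (1 - y)) =
        - (C y * ρ y * D (1 - y)) - C y * (D (1 - y) * ρ (1 - y)) := fun y => by ring
    rw [sum_congr rfl fun y _ => e y, sum_sub_distrib, sum_neg_distrib, j1, j2]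
    ring
  · rw [sum_weight C D _ (fun y => - 1 - ρ y) fun y _ h => fib_one_rho hρ1 hρρ hneg hq h]
    have e : ∀ y : K, C y * D (1 - y) * (- 1 - ρ y) =
        - (C y * D (1 - y)) - C y * ρ y * D (1 - y) := fun y => by ring
    rw [sum_congr rfl fun y _ => e y, sum_sub_distrib, sum_neg_distrib, j0, j1]
    ring
  · rw [sum_weight C D _ (fun y => - 1 - ρ (1 - y)) fun y h _ => fib_rho_one hρ1 hρρ hneg hq h]
    have e : ∀ y : K, C y * D (1 - y) * (- 1 - ρ (1 - y)) =
        - (C y * D (1 - y)) - C y * (D (1 - y) * ρ (1 - y)) := fun y => by ring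
    rw [sum_congr rfl fun y _ => e y, sum_sub_distrib, sum_neg_distrib, j0, j2]
    ring
  · exact absurd ⟨hA, hB⟩ hAB

theorem quad_one (hρ1 : ρ ≠ 1) (hρρ : ρ * ρ = 1) (hneg : ρ (-1) = 1) (hq : (Fintype.card K : κ) = 1)
    {A B C D : MulChar K κ} (hA : A = 1 ∨ A = ρ) (hB : B = 1 ∨ B = ρ) (hC : C = 1 ∨ C = ρ)
    (hD : D = 1 ∨ D = ρ) : quad A B C D 1 = 2 := by
  classical
  have j := fun {A B : MulChar K κ} (hA : A = 1 ∨ A = ρ) (hB : B = 1 ∨ B = ρ) => jac_two hρ1 hρρ hneg hq hA hB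
  have m := fun {A B : MulChar K κ} (hA : A = 1 ∨ A = ρ) (hB : B = 1 ∨ B = ρ) => mul_two hρρ hA hB
  have j1 := j hA hB
  have j2 := j hC hD
  have j3 := j (m hA hC) (m hB hD)
  simp only [MulChar.mul_apply] at j3
  have e : ∀ x y : K, A x * B (1 - x) * C y * D (1 - y) * (1 : MulChar K κ) (x - y) =
      (A x * B (1 - x)) * (C y * D (1 - y)) - (if y = x then A x * B (1 - x) * (C y * D (1 - y)) else 0) := by
    intro x y
    rw [one_val]
    by_cases h : y = x
    · subst h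
      rw [sub_self, if_pos rfl, if_pos rfl]
      ring
    · rw [if_neg (sub_ne_zero.2 (Ne.symm h)), if_neg h]
      ring
  rw [quad, sum_congr rfl fun x _ => sum_congr rfl fun y _ => e x y]
  have e2 : ∀ x : K, ∑ y, ((A x * B (1 - x)) * (C y * D (1 - y)) -
      (if y = x then A x * B (1 - x) * (C y * D (1 - y)) else 0)) =
      (A x * B (1 - x)) * (-1) - A x * C x * (B (1 - x) * D (1 - x)) := by
    intro x
    rw [sum_sub_distrib, ← mul_sum, j2, sum_ite_eq', if_pos (mem_univ _)]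
    ring
  rw [sum_congr rfl fun x _ => e2 x, sum_sub_distrib, ← sum_mul, j1, j3]
  ring

/-- five characters which are trivial or quadratic, not all quadratic -/
theorem quad_two (hρ1 : ρ ≠ 1) (hρρ : ρ * ρ = 1) (hneg : ρ (-1) = 1) (hq : (Fintype.card K : κ) = 1)
    {A B C D E : MulChar K κ} (hA : A = 1 ∨ A = ρ) (hB : B = 1 ∨ B = ρ) (hC : C = 1 ∨ C = ρ)
    (hD : D = 1 ∨ D = ρ) (hE : E = 1 ∨ E = ρ) (h : ¬ (A = ρ ∧ B = ρ ∧ C = ρ ∧ D = ρ ∧ E = ρ)) :
    quad A B C D E = 2 := by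
  rcases hE with hE | hE <;> rw [hE]
  · exact quad_one hρ1 hρρ hneg hq hA hB hC hD
  · by_cases hAB : A = ρ ∧ B = ρ
    · rw [quad_symm hneg]
      exact quad_rho hρ1 hρρ hneg hq hC hD hA hB fun h' => h ⟨hAB.1, hAB.2, h'.1, h'.2, hE⟩
    · exact quad_rho hρ1 hρρ hneg hq hA hB hC hD hAB

end two

section

universe v w

variable {K : Type v} {L : Type w} [Field K] [Fintype K] [DecidableEq K] [Field L]

theorem exists_hom (L : Type w) [Field L] [CharZero L] (r : ℕ) [Fact r.Prime] : ∃ (κ : Type w) (_ : Field κ) (_ : integralClosure ℤ L →+* κ), CharP κ r := by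
  have hrp : r.Prime := Fact.out
  obtain ⟨M, hM, hrM⟩ := exists_residue (L := L) r
  refine ⟨integralClosure ℤ L ⧸ M, Ideal.Quotient.field M, Ideal.Quotient.mk M, ?_⟩
  rw [CharP.charP_iff_prime_eq_zero hrp]
  have := Ideal.Quotient.eq_zero_iff_mem.2 hrM
  rwa [map_natCast] at this

/-- the sum for quadratic twists of characters of order a power of an odd prime `r` -/
theorem quad_residue_two [CharZero L] {r j : ℕ} [Fact r.Prime] (hr : r ≠ 2) (h2 : ringChar K ≠ 2)
    (hneg : quadraticChar K (-1) = 1) {A B C D E A' B' C' D' E' : MulChar K L} {a b c d e : ℕ}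
    (hA : A = eta K L ^ a * A') (hB : B = eta K L ^ b * B') (hC : C = eta K L ^ c * C')
    (hD : D = eta K L ^ d * D') (hE : E = eta K L ^ e * E') (hA' : A' ^ r ^ j = 1)
    (hB' : B' ^ r ^ j = 1) (hC' : C' ^ r ^ j = 1) (hD' : D' ^ r ^ j = 1) (hE' : E' ^ r ^ j = 1)
    (hodd : ¬ (Odd a ∧ Odd b ∧ Odd c ∧ Odd d ∧ Odd e)) (hK : Fintype.card K % r = 1) :
    quad A B C D E ≠ -2 * Fintype.card K := by
  have hrp : r.Prime := Fact.out
  obtain ⟨κ, _, φ, hch⟩ := exists_hom L r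
  have h20 : (2 : κ) ≠ 0 := by
    intro h
    have h1 : ((2 : ℕ) : κ) = 0 := by exact_mod_cast h
    rw [CharP.cast_eq_zero_iff κ r] at h1
    have h9 := Nat.le_of_dvd two_pos h1
    have := hrp.two_le
    omega
  let ρ : MulChar K κ := (quadraticChar K).ringHomComp (Int.castRingHom κ)
  have hρ : ∀ x, ρ x = ((quadraticChar K x : ℤ) : κ) := fun x => rfl
  have hρρ : ρ * ρ = 1 := by
    have := ((quadraticChar_isQuadratic K).comp (Int.castRingHom κ)).sq_eq_one
    rwa [pow_two] at this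
  have hneg' : ρ (-1) = 1 := by rw [hρ, hneg, Int.cast_one]
  have hρ1 : ρ ≠ 1 := by
    intro h
    obtain ⟨x, hx⟩ := quadraticChar_exists_neg_one h2
    have hx0 : x ≠ 0 := by
      rintro rfl
      rw [MulChar.map_nonunit _ not_isUnit_zero] at hx
      norm_num at hx
    have h3 := hρ x
    rw [h, MulChar.one_apply (isUnit_iff_ne_zero.2 hx0), hx] at h3
    push_cast at h3
    apply h20
    linear_combination h3
  have hq : (Fintype.card K : κ) = 1 := by
    have h : (Fintype.card K : κ) = ((1 : ℕ) : κ) := by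
      rw [CharP.natCast_eq_natCast κ r, Nat.ModEq, hK, Nat.mod_eq_of_lt hrp.one_lt]
    rwa [Nat.cast_one] at h
  have hval : ∀ {χ χ' : MulChar K L} {n : ℕ}, χ = eta K L ^ n * χ' → χ' ^ r ^ j = 1 → ∀ x : K,
      φ (liftR χ x) = (ρ ^ n) x := by
    intro χ χ' n h h' x
    by_cases hx : x = 0
    · rw [hx, (liftR χ).map_nonunit not_isUnit_zero, map_zero'', map_zero]
    have hu : IsUnit x := isUnit_iff_ne_zero.2 hx
    obtain ⟨u, rfl⟩ := hu
    have h1 : liftR χ (u : K) = ((quadraticChar K (u : K) : ℤ) : integralClosure ℤ L) ^ n * liftR χ' (u : K) := by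
      apply Subtype.ext
      show χ u = _
      rw [h, MulChar.mul_apply, MulChar.pow_apply_coe, eta_apply]
      rfl
    have h2 : φ (liftR χ' (u : K)) = 1 := by
      apply eq_one_of_pow (r := r) (e := j)
      rw [← map_pow]
      have h3 : (liftR χ' (u : K)) ^ r ^ j = 1 := by
        apply Subtype.ext
        have h4 : χ' (u : K) ^ r ^ j = 1 := by
          rw [← MulChar.pow_apply_coe, h', MulChar.one_apply_coe]
        exact h4
      rw [h3, map_one]
    rw [h1, map_mul, h2, mul_one, map_pow, map_intCast, MulChar.pow_apply_coe, hρ]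
  have hpar : ∀ n : ℕ, (ρ ^ n = 1 ∨ ρ ^ n = ρ) ∧ (ρ ^ n = ρ → Odd n) := by
    intro n
    rcases Nat.even_or_odd n with h | h
    · obtain ⟨m, rfl⟩ := h
      have h3 : ρ ^ (m + m) = 1 := by rw [pow_add, ← mul_pow, hρρ, one_pow]
      rw [h3]
      exact ⟨Or.inl rfl, fun h4 => absurd h4.symm hρ1⟩
    · refine ⟨?_, fun _ => h⟩
      obtain ⟨m, rfl⟩ := h
      right
      rw [pow_succ, pow_mul, pow_two, hρρ, one_pow, one_mul]
  intro hS
  have h3 : (∑ x, ∑ y, liftR A x * liftR B (1 - x) * liftR C y * liftR D (1 - y) *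
      liftR E (x - y) : integralClosure ℤ L) = -2 * (Fintype.card K : integralClosure ℤ L) := by
    apply Subtype.ext
    rw [quad_coe, hS]
    simp only [neg_mul, NegMemClass.coe_neg, MulMemClass.coe_mul, SubringClass.coe_natCast,
      neg_inj, mul_eq_mul_right_iff, Nat.cast_eq_zero, Fintype.card_ne_zero, or_false]
    exact (map_ofNat (algebraMap (integralClosure ℤ L) L) 2).symm
  have h4 := congrArg φ h3
  rw [map_sum] at h4
  have h5 : ∀ x : K, φ (∑ y, liftR A x * liftR B (1 - x) * liftR C y * liftR D (1 - y) *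
      liftR E (x - y)) = ∑ y : K, (ρ ^ a) x * (ρ ^ b) (1 - x) * (ρ ^ c) y * (ρ ^ d) (1 - y) * (ρ ^ e) (x - y) := by
    intro x
    rw [map_sum]
    refine sum_congr rfl fun y _ => ?_
    rw [map_mul, map_mul, map_mul, map_mul, hval hA hA', hval hB hB', hval hC hC', hval hD hD', hval hE hE']
  have h6 := quad_two hρ1 hρρ hneg' hq (hpar a).1 (hpar b).1 (hpar c).1 (hpar d).1 (hpar e).1
    fun h => hodd ⟨(hpar a).2 h.1, (hpar b).2 h.2.1, (hpar c).2 h.2.2.1, (hpar d).2 h.2.2.2.1, (hpar e).2 h.2.2.2.2⟩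
  rw [quad] at h6
  rw [sum_congr rfl fun x _ => h5 x, h6, map_mul, map_neg, map_natCast, map_ofNat, hq] at h4
  have h7 : (2 : κ) * 2 = 0 := by linear_combination h4
  rcases mul_eq_zero.1 h7 with h | h <;> exact h20 h

end

end Pool.Agent.Helper73.QC
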